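import Pool.Agent.Y714.KE.All

/-!
# Manin's conjecture for all forms of `(ℙ¹)ⁿ // SL₂` over `ℚ`, `n ≥ 5` odd

Let `n ≥ 5` be odd. The quotient `V_n = (ℙ¹)ⁿ // SL₂` is a smooth Fano variety of dimension `n - 3`
(`V_5` is the quintic del Pezzo surface), its Picard group over an algebraically closed field has
rank `n`, and `S_n` permutes the `n` points. Let `A = ∏ K_i` be an etale algebra of degree `n` over
`ℚ` (a product of `r` number fields) and let `V_A` be the form of `V_n` over `ℚ` for which the `n`
points are permuted by the Galois group like the homomorphisms from `A` to the complex numbers: a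
smooth Fano variety over `ℚ` with Picard number `r`. For `n = 5` the surfaces `V_A` are all quintic
del Pezzo surfaces over `ℚ`.

The rational points of the open subset of `V_A` given by `n` distinct points of the line are the
classes of the pairs `P` in `A × A` whose `n` conjugates are different points of the line, modulo
`A^×` and `GL₂(ℚ)` (`n` is odd, so that there is no obstruction).

The products of brackets `∏ [e, π(e)]`, over the permutations `π` of the `n` points, span the
sections of the anticanonical bundle. `ht` is the corresponding height: for each prime number `p`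
the maximum of the absolute values of these sections on a `p`-reduced pair is a power of the
content. An arbitrary adelic metric on the anticanonical bundle differs from this one by positive
continuous functions on `V_A(ℝ)` and on finitely many `V_A(ℚ_p)`.

The theorem: for each adelic metric, the number of rational points of height at most `B` is
asymptotically equal to `c B (log B) ^ (r - 1)`, with `c > 0`, as predicted by Manin.
-/

set_option autoImplicit false

namespace Pool.Agent.Results.MP_1acd66_nt.AllForms

open NumberField FractionalIdeal Module Filter Topology ComplexConjugate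
open scoped nonZeroDivisors

section

variable {s : Type} [Fintype s] [DecidableEq s] (K : s → Type) [∀ i, Field (K i)]
  [∀ i, NumberField (K i)]

/-- The etale algebra `A`, the product of the number fields `K i`. -/
abbrev Alg : Type := ∀ i, K i

/-- The homomorphisms from `A` to the complex numbers: the `n` points. -/
abbrev Emb : Type := Σ i, (K i →+* ℂ)

/-- The degree `n` of `A`. -/
noncomputable def deg : ℕ := ∑ i, finrank ℚ (K i)

/-- A family of vectors indexed by the homomorphisms from `A` to the complex numbers: `n` points of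
the line. -/
abbrev Tuple : Type := Emb K → ℂ × ℂ

variable {K}

/-- The bracket of two vectors. -/
def bracket (x y : ℂ × ℂ) : ℂ := x.1 * y.2 - x.2 * y.1

/-- The conjugates of a pair of elements of `A`. -/
def conjugates (P : Alg K × Alg K) : Tuple K := fun e => (e.2 (P.1 e.1), e.2 (P.2 e.1))

/-- The maximum of the absolute values of the products `∏ [e, π(e)]` for all permutations `π`. -/
noncomputable def size (v : Tuple K) : ℝ :=
  ⨆ π : Equiv.Perm (Emb K), ∏ e : Emb K, ‖bracket (v e) (v (π e))‖

/-- The fractional ideals generated by the two elements, one for each factor `K i`. -/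
noncomputable def content (P : Alg K × Alg K) (i : s) : FractionalIdeal (𝓞 (K i))⁰ (K i) :=
  spanSingleton (𝓞 (K i))⁰ (P.1 i) + spanSingleton (𝓞 (K i))⁰ (P.2 i)

/-- The norm of a family of fractional ideals. -/
noncomputable def norm (J : ∀ i, FractionalIdeal (𝓞 (K i))⁰ (K i)) : ℚ := ∏ i, absNorm (J i)

/-- The action of a rational matrix on pairs. -/
def act (a b c d : ℚ) (P : Alg K × Alg K) : Alg K × Alg K :=
  (a • P.1 + b • P.2, c • P.1 + d • P.2)

/-- The height of the point given by `P`: the infimum of `size / norm(content)²` over all pairs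
`g P`, where `g` is in `GL₂(ℚ)`. -/
noncomputable def ht (P : Alg K × Alg K) : ℝ := sInf {r : ℝ | ∃ a b c d : ℚ, a * d - b * c ≠ 0 ∧
  r = size (conjugates (act a b c d P)) / ((norm (content (act a b c d P)) : ℚ) : ℝ) ^ 2}

/-- The `n` conjugates of the pair are different points of the line. -/
def Distinct (P : Alg K × Alg K) : Prop := ∀ e f : Emb K, e ≠ f →
  bracket (conjugates P e) (conjugates P f) ≠ 0

/-- The pairs give the same point: `P' = x g P` with `x` in `A^×` and `g` in `GL₂(ℚ)`. -/
def Equivalent (P P' : Alg K × Alg K) : Prop := ∃ (x : Alg K) (a b c d : ℚ), (∀ i, x i ≠ 0) ∧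
  a * d - b * c ≠ 0 ∧ P' = (x * (act a b c d P).1, x * (act a b c d P).2)

/-- The tuple is real (compatible with complex conjugation) and stable: some product of brackets
is not zero, that is (the number of points being odd), less than half of the points agree. -/
def RealStable (v : Tuple K) : Prop :=
  (∀ (i : s) (σ : K i →+* ℂ),
    v ⟨i, ComplexEmbedding.conjugate σ⟩ = (conj (v ⟨i, σ⟩).1, conj (v ⟨i, σ⟩).2)) ∧ 0 < size v

/-- A positive continuous function on `V_A(ℝ)`: a continuous function on the real stable tuples
with values in some `[m, M]`, `m > 0`, which does not change if the vectors are multiplied by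
scalars (compatible with complex conjugation), or by a matrix in `GL₂(ℝ)`. -/
def RealFactor (ψ : Tuple K → ℝ) : Prop :=
  (∃ m M : ℝ, 0 < m ∧ ∀ v, RealStable v → m ≤ ψ v ∧ ψ v ≤ M) ∧
  ContinuousOn ψ {v | RealStable v} ∧
  (∀ v, RealStable v → ∀ a : Emb K → ℂ, (∀ e, a e ≠ 0) →
    (∀ (i : s) (σ : K i →+* ℂ), a ⟨i, ComplexEmbedding.conjugate σ⟩ = conj (a ⟨i, σ⟩)) →
    ψ (fun e => a e • v e) = ψ v) ∧
  (∀ v, RealStable v → ∀ a b c d : ℝ, a * d - b * c ≠ 0 →
    ψ (fun e => (a * (v e).1 + b * (v e).2, c * (v e).1 + d * (v e).2)) = ψ v)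

/-- The pair `(α, β)` is `p`-reduced: for each `x` in the lattice `M = ℤ α + ℤ β`, not in `p M`,
`N(p 𝔠 + x 𝓞)² < pⁿ N(𝔠)²`, where `𝔠` is the content and `𝓞` the product of the rings of integers.
(Less than half of the `n` points agree modulo `p`.) -/
def Reduced (p : ℕ) (P : Alg K × Alg K) : Prop :=
  ∀ x ∈ Submodule.span ℤ ({P.1, P.2} : Set (Alg K)),
    (¬ ∃ y ∈ Submodule.span ℤ ({P.1, P.2} : Set (Alg K)), x = (p : ℤ) • y) →
    norm (fun i => spanSingleton (𝓞 (K i))⁰ (p : K i) * content P i +
      spanSingleton (𝓞 (K i))⁰ (x i)) ^ 2 < (p : ℚ) ^ deg K * norm (content P) ^ 2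

/-- A positive continuous function on `V_A(ℚ_p)`, given by its values at the rational points: it
has values in some `[m, M]`, `m > 0`, depends only on the point, and is `p`-adically continuous,
uniformly on `p`-reduced pairs: for each `ε > 0` there is `k` such that the values at `P` and `P'`
differ by at most `ε` if `P` is `p`-reduced with content `𝔠` and `P'` is congruent to `P` modulo
`p ^ k 𝔠`. -/
def PadicFactor (p : ℕ) (φ : Alg K × Alg K → ℝ) : Prop :=
  (∃ m M : ℝ, 0 < m ∧ ∀ P, Distinct P → m ≤ φ P ∧ φ P ≤ M) ∧
  (∀ P P', Distinct P → Equivalent P P' → φ P' = φ P) ∧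
  ∀ ε : ℝ, 0 < ε → ∃ k : ℕ, ∀ P P' : Alg K × Alg K, Distinct P → Distinct P' → Reduced p P →
    (∀ i, P'.1 i - P.1 i ∈ spanSingleton (𝓞 (K i))⁰ (p : K i) ^ k * content P i) →
    (∀ i, P'.2 i - P.2 i ∈ spanSingleton (𝓞 (K i))⁰ (p : K i) ^ k * content P i) →
    |φ P' - φ P| ≤ ε

theorem size_eq (v : Tuple K) : size v = Y714.KF.pm v := by
  unfold size Y714.KF.pm
  rw [Finset.sup'_univ_eq_ciSup]
  rfl

theorem realStable_iff (v : Tuple K) : RealStable v ↔ Y714.KE.SYM v ∧ 0 < Y714.KF.pm v := by
  rw [RealStable, size_eq]
  rfl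

theorem ht_eq (P : Alg K × Alg K) : ht P = Y714.KE.ht P := by
  unfold ht Y714.KE.ht Y714.KE.hp
  simp only [size_eq]
  rfl

theorem realFactor_iff (ψ : Tuple K → ℝ) : RealFactor ψ ↔ Y714.KE.RFac ψ := by
  unfold RealFactor Y714.KE.RFac
  simp only [realStable_iff, and_imp]
  rfl

end

/-- **Manin's conjecture for the forms `V_A` of `(ℙ¹)ⁿ // SL₂`, all adelic heights.** -/
theorem result {s : Type} [Fintype s] [DecidableEq s] (K : s → Type) [∀ i, Field (K i)]
    [∀ i, NumberField (K i)] (hodd : Odd (deg K)) (hn : 5 ≤ deg K) (S : Finset ℕ)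
    (hS : ∀ p ∈ S, p.Prime) (ψ : Tuple K → ℝ) (hψ : RealFactor ψ) (φ : ℕ → Alg K × Alg K → ℝ)
    (hφ : ∀ p ∈ S, PadicFactor p (φ p)) :
    ∃ c : ℝ, 0 < c ∧ Tendsto (fun B : ℝ => ({C : Set (Alg K × Alg K) | ∃ P, Distinct P ∧
      C = {P' | Equivalent P P'} ∧
      ht P * (ψ (conjugates P) * ∏ p ∈ S, φ p P) ≤ B}.ncard : ℝ) /
        (B * Real.log B ^ (Fintype.card s - 1))) atTop (𝓝 c) := by
  have h := Y714.KE.final K hodd hn S hS ψ ((realFactor_iff ψ).1 hψ) φ (fun p hp => hφ p hp)
  simp only [ht_eq]
  exact h

end Pool.Agent.Results.MP_1acd66_nt.AllForms
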