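import Pool.Agent.Y714.MA.FinF

set_option autoImplicit false

/-! Manin's conjecture over `ℚ` for the quotients `(P^1)^n // SL_2`, `n ≥ 5`, and all adelic
anticanonical heights: the asymptotic formula for the number of rational points of bounded
height. -/

namespace Pool.Agent.Results.MP_1acd66_nt.PointsOnTheLineAllHeights

open Finset Filter Topology

/-- the labels of the `N + 3` points `∞, 0, 1, t_1, ..., t_N` -/
abbrev Ix (N : ℕ) : Type := Fin 3 ⊕ Fin N

/-- homogeneous coordinates of the points `∞, 0, 1, t_1, ..., t_N` -/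
def pt {N : ℕ} (t : Fin N → ℚ) : Ix N → ℚ × ℚ
  | Sum.inl i => ![(1, 0), (0, 1), (1, 1)] i
  | Sum.inr j => (t j, 1)

/-- the bracket of two vectors -/
def br {K : Type} [Field K] (x y : K × K) : K := x.1 * y.2 - x.2 * y.1

/-- the exponents of the monomials in the brackets which have degree `2` in every point -/
def Mon (N : ℕ) : Type := {m : Ix N × Ix N → ℕ // ∀ i, ∑ j, (m (i, j) + m (j, i)) = 2}

/-- the anticanonical height: the Weil height defined by all monomials in the brackets which have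
degree `2` in every point -/
noncomputable def ht {N : ℕ} (t : Fin N → ℚ) : ℝ :=
  Height.mulHeight fun m : Mon N => ∏ q : Ix N × Ix N, br (pt t q.1) (pt t q.2) ^ m.1 q

/-- the configurations of distinct points, i.e. the rational points of `M_{0,N+3}` -/
def U (N : ℕ) : Set (Fin N → ℚ) := {t | Function.Injective t ∧ ∀ j, t j ≠ 0 ∧ t j ≠ 1}

/-- weight `3` at the marked point `o`, weight `2` at the other points -/
def wt {N : ℕ} (o i : Ix N) : ℕ := if i = o then 3 else 2

/-- the stable configurations of `N + 3` vectors of the plane `K ^ 2`: they are not zero, and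
proportional vectors have less than one half of the total weight -/
def Stable {N : ℕ} {K : Type} [Field K] (o : Ix N) (x : Ix N → K × K) : Prop :=
  ∀ j, x j ≠ 0 ∧ ∀ M : Finset (Ix N), (∀ l ∈ M, br (x j) (x l) = 0) →
    2 * ∑ l ∈ M, wt o l < ∑ l, wt o l

/-- positive continuous functions on `V(K)`, where `V` is the quotient of the stable
configurations by `GL_2` and the scalings of the vectors -/
structure LocalFactor {N : ℕ} {K : Type} [NormedField K] (o : Ix N)
    (φ : (Ix N → K × K) → ℝ) : Prop where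
  continuous : ContinuousOn φ {x | Stable o x}
  invariant : ∀ x, Stable o x → ∀ a b c d : K, a * d - b * c ≠ 0 → ∀ s : Ix N → K, (∀ l, s l ≠ 0) →
    φ (fun l => (s l * (a * (x l).1 + b * (x l).2), s l * (c * (x l).1 + d * (x l).2))) = φ x
  bounded : ∃ m M : ℝ, 0 < m ∧ ∀ x, Stable o x → m ≤ φ x ∧ φ x ≤ M

/-- extension of scalars -/
def ext {N : ℕ} {K : Type} [Field K] (x : Ix N → ℚ × ℚ) : Ix N → K × K :=
  fun l => (((x l).1 : K), ((x l).2 : K))

instance (p : Nat.Primes) : Fact (p : ℕ).Prime := ⟨p.2⟩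

theorem result (N : ℕ) (hN : 2 ≤ N) (o : Ix N) (S : Finset Nat.Primes)
    (φ₀ : (Ix N → ℝ × ℝ) → ℝ) (h₀ : LocalFactor o φ₀)
    (φ : ∀ p : Nat.Primes, (Ix N → ℚ_[p] × ℚ_[p]) → ℝ) (h : ∀ p ∈ S, LocalFactor o (φ p)) :
    ∃ c : ℝ, 0 < c ∧ Tendsto (fun B : ℝ =>
      ({t ∈ U N | ht t * (φ₀ (ext (pt t)) * ∏ p ∈ S, φ p (ext (pt t))) ≤ B}.ncard : ℝ) /
        (B * Real.log B ^ (N + 2))) atTop (𝓝 c) := by
  have h₀' : Y714.MA.IsMet (Y714.MA.tht o) φ₀ := ⟨h₀.1, h₀.2, h₀.3⟩
  have h' : ∀ p ∈ S, Y714.MA.IsMet (Y714.MA.tht o) (φ p) :=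
    fun p hp => ⟨(h p hp).1, (h p hp).2, (h p hp).3⟩
  exact Y714.MA.asymptoticF N hN o S φ₀ h₀' φ h'

end Pool.Agent.Results.MP_1acd66_nt.PointsOnTheLineAllHeights
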