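import Pool.Agent.Y714.ML.Open

set_option autoImplicit false

/-! The order of magnitude of the number of rational points of bounded anticanonical height on the
quotients `(P^1)^n // SL_2` over `ℚ`, `n ≥ 5`: an upper bound on the open set of distinct points and
a lower bound on every dense open subset. -/

namespace Pool.Agent.Results.MP_1acd66_nt.PointsOnTheLineOrder

open Finset

/-- the labels of the `N + 3` points `∞, 0, 1, t_1, ..., t_N` -/
abbrev Ix (N : ℕ) : Type := Fin 3 ⊕ Fin N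

/-- homogeneous coordinates of the points `∞, 0, 1, t_1, ..., t_N` -/
def pt {N : ℕ} (t : Fin N → ℚ) : Ix N → ℚ × ℚ
  | Sum.inl i => ![(1, 0), (0, 1), (1, 1)] i
  | Sum.inr j => (t j, 1)

/-- the brackets of the configuration -/
def br {N : ℕ} (t : Fin N → ℚ) (i j : Ix N) : ℚ :=
  (pt t i).1 * (pt t j).2 - (pt t i).2 * (pt t j).1

/-- the exponents of the monomials in the brackets which have degree `2` in every point -/
def Mon (N : ℕ) : Type := {m : Ix N × Ix N → ℕ // ∀ i, ∑ j, (m (i, j) + m (j, i)) = 2}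

/-- the anticanonical height: the Weil height defined by all monomials in the brackets which have
degree `2` in every point -/
noncomputable def ht {N : ℕ} (t : Fin N → ℚ) : ℝ :=
  Height.mulHeight fun m : Mon N => ∏ q : Ix N × Ix N, br t q.1 q.2 ^ m.1 q

/-- the configurations of distinct points, i.e. the rational points of `M_{0,N+3}` -/
def U (N : ℕ) : Set (Fin N → ℚ) := {t | Function.Injective t ∧ ∀ j, t j ≠ 0 ∧ t j ≠ 1}

theorem result (N : ℕ) (hN : 2 ≤ N) :
    (∃ C B₀ : ℝ, ∀ B : ℝ, B₀ ≤ B → {t ∈ U N | ht t ≤ B}.Finite ∧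
      ({t ∈ U N | ht t ≤ B}.ncard : ℝ) ≤ C * B * Real.log B ^ (N + 2)) ∧
    ∀ G : MvPolynomial (Fin N) ℚ, G ≠ 0 → ∃ c B₀ : ℝ, 0 < c ∧ ∀ B : ℝ, B₀ ≤ B →
      c * B * Real.log B ^ (N + 2) ≤
        ({t ∈ U N | MvPolynomial.eval t G ≠ 0 ∧ ht t ≤ B}.ncard : ℝ) := by
  constructor
  · obtain ⟨c, C, B₀, hc, h⟩ := Y714.ML.two_fin N hN
    obtain ⟨C', h'⟩ := Y714.ML.upper_fin N (by omega) (fun _ => 1) (fun _ => by norm_num) (by
      intro i
      simp only [sum_const, smul_eq_mul, mul_one, Finset.card_univ, Fintype.card_sum,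
        Fintype.card_fin]
      omega)
    refine ⟨C, max B₀ 1, fun B hB => ⟨?_, (h B ((le_max_left _ _).trans hB)).2⟩⟩
    have hB1 : 1 ≤ B := (le_max_right _ _).trans hB
    have h1 := (h' (Real.sqrt B) (Real.one_le_sqrt.2 hB1)).1
    rw [Real.sq_sqrt (by linarith)] at h1
    exact h1
  · intro G hG
    obtain ⟨c, hc, B₀, h⟩ := Y714.ML.lower_open N hN hG
    exact ⟨c, B₀, hc, h⟩

end Pool.Agent.Results.MP_1acd66_nt.PointsOnTheLineOrder
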